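import Mathlib
import Pool.Agent.X189.JP.Core

set_option autoImplicit false

/-!
Every Jordan path in the image of an admissible path belongs to the maximal collection generated by
the subpaths.
-/

namespace Pool.Agent.Results.MP_78c6b8_an.JordanPaths

open MeasureTheory Set Pool.Agent.X189.JP
open scoped NNReal ENNReal

/-- A path: a continuous map from `[lo, hi]`, `lo < hi`, to the plane (the values of `f` off
`[lo, hi]` play no role). -/
structure PPath where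
  lo : ℝ
  hi : ℝ
  lt : lo < hi
  f : ℝ → ℂ
  cont : ContinuousOn f (Icc lo hi)

/-- The image of a path. -/
def PPath.im (γ : PPath) : Set ℂ := γ.f '' Icc γ.lo γ.hi

/-- An admissible path: rectifiable and not constant on any nondegenerate subinterval. -/
def PPath.Admissible (γ : PPath) : Prop :=
  BoundedVariationOn γ.f (Icc γ.lo γ.hi) ∧
    ∀ c d : ℝ, γ.lo ≤ c → c < d → d ≤ γ.hi → ∃ t ∈ Icc c d, γ.f t ≠ γ.f c

/-- A Jordan path is an injective path. -/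
def PPath.Jordan (γ : PPath) : Prop := InjOn γ.f (Icc γ.lo γ.hi)

/-- The subpaths of a path: its restrictions to nondegenerate closed subintervals. -/
def subpaths (γ : PPath) : Set PPath := {σ | γ.lo ≤ σ.lo ∧ σ.hi ≤ γ.hi ∧ σ.f = γ.f}

/-- `p` is a partition of `[s, t]` into `n` intervals with tags `ξ`. -/
structure TagPart (s t : ℝ) (n : ℕ) (p ξ : ℕ → ℝ) : Prop where
  start : p 0 = s
  fin : p n = t
  mono : ∀ i < n, p i ≤ p (i + 1)
  tag : ∀ i < n, ξ i ∈ Icc (p i) (p (i + 1))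

/-- The contour integral `∫_γ g(z) dz` exists as a Riemann-Stieltjes integral and equals `L`. -/
def HasIntegral (γ : PPath) (g : ℂ → ℂ) (L : ℂ) : Prop :=
  ∀ ε : ℝ, 0 < ε → ∃ δ : ℝ, 0 < δ ∧ ∀ (n : ℕ) (p ξ : ℕ → ℝ), TagPart γ.lo γ.hi n p ξ →
    (∀ i < n, p (i + 1) - p i < δ) →
    ‖∑ i ∈ Finset.range n, g (γ.f (ξ i)) * (γ.f (p (i + 1)) - γ.f (p i)) - L‖ ≤ ε

/-- `g` is an `F`-derivative of `f`. -/
def IsDer (F : Set PPath) (f g : ℂ → ℂ) : Prop :=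
  ∀ γ ∈ F, HasIntegral γ g (f (γ.f γ.hi) - f (γ.f γ.lo))

/-- The maximal collection generated by `F` in `X`. -/
def maxColl (X : Set ℂ) (F : Set PPath) : Set PPath :=
  {γ | γ.Admissible ∧ γ.im ⊆ X ∧ ∀ f g : ℂ → ℂ, ContinuousOn f X → ContinuousOn g X →
    IsDer F f g → IsDer (subpaths γ) f g}

/-- the control function of an admissible path -/
noncomputable def ctrl (Γ : PPath) (x : ℝ) : ℝ :=
  variationOnFromTo Γ.f (Icc Γ.lo Γ.hi) Γ.lo (max Γ.lo (min Γ.hi x))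

lemma clamp_mem (Γ : PPath) (x : ℝ) : max Γ.lo (min Γ.hi x) ∈ Icc Γ.lo Γ.hi :=
  ⟨le_max_left _ _, max_le Γ.lt.le (min_le_left _ _)⟩

lemma clamp_eq {Γ : PPath} {x : ℝ} (hx : x ∈ Icc Γ.lo Γ.hi) : max Γ.lo (min Γ.hi x) = x := by
  rw [min_eq_right hx.2, max_eq_right hx.1]

lemma lo_mem (Γ : PPath) : Γ.lo ∈ Icc Γ.lo Γ.hi := ⟨le_rfl, Γ.lt.le⟩

lemma ctrl_sub {Γ : PPath} (hΓ : Γ.Admissible) {s t : ℝ} (hs : s ∈ Icc Γ.lo Γ.hi)
    (ht : t ∈ Icc Γ.lo Γ.hi) : ctrl Γ t - ctrl Γ s =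
      variationOnFromTo Γ.f (Icc Γ.lo Γ.hi) s t := by
  unfold ctrl
  rw [clamp_eq hs, clamp_eq ht]
  have := variationOnFromTo.add hΓ.1.locallyBoundedVariationOn (lo_mem Γ) hs ht
  linarith

/-- the data of an admissible path -/
noncomputable def dat (Γ : PPath) (hΓ : Γ.Admissible) : Dat where
  a := Γ.lo
  b := Γ.hi
  G := Γ.f
  V := ctrl Γ
  hG := Γ.cont
  hVm := by
    intro x y hxy
    refine variationOnFromTo.monotoneOn hΓ.1.locallyBoundedVariationOn (lo_mem Γ)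
      (clamp_mem Γ x) (clamp_mem Γ y) ?_
    exact max_le_max le_rfl (min_le_min le_rfl hxy)
  hVG := by
    intro s hs t ht hst
    rw [ctrl_sub hΓ hs ht, variationOnFromTo.eq_of_le _ _ hst, ← dist_eq_norm]
    refine (hΓ.1.mono inter_subset_left).dist_le ⟨hs, ⟨le_rfl, hst⟩⟩ ⟨ht, ⟨hst, le_rfl⟩⟩
  hinj := by
    have aux : ∀ s ∈ Icc Γ.lo Γ.hi, ∀ t ∈ Icc Γ.lo Γ.hi, s < t → ctrl Γ s ≠ ctrl Γ t := by
      intro s hs t ht hst h
      have h1 := ctrl_sub hΓ hs ht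
      rw [h, sub_self] at h1
      have h2 := (variationOnFromTo.eq_zero_iff_of_le hΓ.1.locallyBoundedVariationOn hs ht
        hst.le).1 h1.symm
      obtain ⟨x, hx, hne⟩ := hΓ.2 s t hs.1 hst ht.2
      have h3 := h2 ⟨⟨hs.1.trans hx.1, hx.2.trans ht.2⟩, hx⟩ ⟨hs, ⟨le_rfl, hst.le⟩⟩
      exact hne (edist_eq_zero.1 h3)
    intro s hs t ht h
    rcases lt_trichotomy s t with hlt | heq | hlt
    · exact absurd h (aux s hs t ht hlt)
    · exact heq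
    · exact absurd h.symm (aux t ht s hs hlt)

/-- a Jordan path as an arc -/
noncomputable def arc (Γ : PPath) (hΓ : Γ.Admissible) (γ : PPath) (hγ : γ.Jordan)
    (h : γ.im ⊆ Γ.im) : Arc (dat Γ hΓ) where
  c := γ.lo
  d := γ.hi
  γ := γ.f
  hγ := γ.cont
  hγi := hγ
  hin := fun s hs => h ⟨s, hs, rfl⟩

lemma G_le {Γ : PPath} (hΓ : Γ.Admissible) {s t : ℝ} (hs : s ∈ Icc Γ.lo Γ.hi)
    (ht : t ∈ Icc Γ.lo Γ.hi) : ‖Γ.f s - Γ.f t‖ ≤ |ctrl Γ s - ctrl Γ t| := by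
  rcases le_total s t with h | h
  · refine ((dat Γ hΓ).hVG s hs t ht h).trans ?_
    rw [abs_sub_comm]
    exact le_abs_self _
  · rw [norm_sub_rev]
    exact ((dat Γ hΓ).hVG t ht s hs h).trans (le_abs_self _)

/-- rectifiability of a Jordan path in the image of an admissible path -/
lemma rect {Γ : PPath} (hΓ : Γ.Admissible) {γ : PPath} (hγ : γ.Jordan) (h : γ.im ⊆ Γ.im) :
    BoundedVariationOn γ.f (Icc γ.lo γ.hi) := by
  have key : eVariationOn γ.f (Icc γ.lo γ.hi) ≤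
      ENNReal.ofReal ((1 : ℝ≥0) * (ctrl Γ Γ.hi - ctrl Γ Γ.lo)) := by
    refine iSup_le ?_
    rintro ⟨n, u, hu, hus⟩
    have h1 := (arc Γ hΓ γ hγ h).total (n := n) (p := u) (fun i _ => hus i)
      (fun i _ => hu (Nat.le_succ i)) (u := fun _ z => z) (fun _ _ => continuousOn_id)
      (κ := 1) (δ := 1) one_pos (fun i _ t ht t' ht' _ => by
        rw [NNReal.coe_one, one_mul]
        exact G_le hΓ ht.1 ht'.1) Γ.lt.le
    show ∑ i ∈ Finset.range n, edist (γ.f (u (i + 1))) (γ.f (u i)) ≤ _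
    have h2 : ∑ i ∈ Finset.range n, edist (γ.f (u (i + 1))) (γ.f (u i)) =
        ENNReal.ofReal (∑ i ∈ Finset.range n, ‖γ.f (u (i + 1)) - γ.f (u i)‖) := by
      rw [ENNReal.ofReal_sum_of_nonneg (fun _ _ => norm_nonneg _)]
      refine Finset.sum_congr rfl fun i _ => ?_
      rw [edist_dist, dist_eq_norm]
    rw [h2]
    exact ENNReal.ofReal_le_ofReal h1
  exact ne_top_of_le_ne_top ENNReal.ofReal_ne_top key

lemma jordan_admissible {Γ : PPath} (hΓ : Γ.Admissible) {γ : PPath} (hγ : γ.Jordan)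
    (h : γ.im ⊆ Γ.im) : γ.Admissible := by
  refine ⟨rect hΓ hγ h, fun c d hc hcd hd => ⟨d, ⟨hcd.le, le_rfl⟩, fun heq => ?_⟩⟩
  have := hγ ⟨hc.trans hcd.le, hd⟩ ⟨hc, hcd.le.trans hd⟩ heq
  exact absurd this hcd.ne'

/-- the uniform partition -/
noncomputable def up (s t : ℝ) (n : ℕ) (i : ℕ) : ℝ := s + i * ((t - s) / n)

/-- estimate of a contour integral along a subpath of an admissible path -/
lemma int_est {Γ : PPath} (hΓ : Γ.Admissible) (σ : PPath) (hσ : σ ∈ subpaths Γ) {g : ℂ → ℂ}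
    {L g0 : ℂ} {κ : ℝ} (hκ : 0 ≤ κ) (hL : HasIntegral σ g L)
    (hb : ∀ τ ∈ Icc σ.lo σ.hi, ‖g (Γ.f τ) - g0‖ ≤ κ) :
    ‖L - g0 * (Γ.f σ.hi - Γ.f σ.lo)‖ ≤ κ * (ctrl Γ σ.hi - ctrl Γ σ.lo) := by
  apply le_of_forall_pos_le_add
  intro ε hε
  obtain ⟨δ, hδ, hsum⟩ := hL ε hε
  obtain ⟨n, hn⟩ := exists_nat_gt ((σ.hi - σ.lo) / δ)
  have hlt := σ.lt
  have hn0 : (0 : ℝ) < n := lt_trans (div_pos (sub_pos.2 hlt) hδ) hn
  have hn1 : 0 < n := by exact_mod_cast hn0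
  set p : ℕ → ℝ := up σ.lo σ.hi n with hp
  have hstep : ∀ i, p (i + 1) - p i = (σ.hi - σ.lo) / n := by
    intro i
    simp only [hp, up]
    push_cast
    ring
  have hstep0 : 0 ≤ (σ.hi - σ.lo) / n := (div_pos (sub_pos.2 hlt) hn0).le
  have hmono : ∀ i, p i ≤ p (i + 1) := fun i => by
    have := hstep i
    linarith
  have hmono' : Monotone p := monotone_nat_of_le_succ hmono
  have hp0 : p 0 = σ.lo := by simp [hp, up]
  have hpn : p n = σ.hi := by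
    simp only [hp, up]
    rw [mul_div_cancel₀ _ hn0.ne']
    ring
  have hpart : TagPart σ.lo σ.hi n p p :=
    ⟨hp0, hpn, fun i _ => hmono i, fun i _ => ⟨le_rfl, hmono i⟩⟩
  have hmesh : ∀ i < n, p (i + 1) - p i < δ := by
    intro i _
    rw [hstep, div_lt_iff₀ hn0]
    rw [div_lt_iff₀ hδ] at hn
    linarith
  have h1 := hsum n p p hpart hmesh
  rw [hσ.2.2] at h1
  have hin : ∀ i ≤ n, p i ∈ Icc σ.lo σ.hi := fun i hi =>
    ⟨hp0 ▸ hmono' (Nat.zero_le i), hpn ▸ hmono' hi⟩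
  have hin' : ∀ i ≤ n, p i ∈ Icc Γ.lo Γ.hi := fun i hi =>
    ⟨hσ.1.trans (hin i hi).1, (hin i hi).2.trans hσ.2.1⟩
  have h2 : ‖∑ i ∈ Finset.range n, g (Γ.f (p i)) * (Γ.f (p (i + 1)) - Γ.f (p i)) -
      g0 * (Γ.f σ.hi - Γ.f σ.lo)‖ ≤ κ * (ctrl Γ σ.hi - ctrl Γ σ.lo) := by
    have e1 : g0 * (Γ.f σ.hi - Γ.f σ.lo) =
        ∑ i ∈ Finset.range n, g0 * (Γ.f (p (i + 1)) - Γ.f (p i)) := by
      rw [← Finset.mul_sum, Finset.sum_range_sub (fun i => Γ.f (p i)), hpn, hp0]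
    rw [e1, ← Finset.sum_sub_distrib]
    have e2 : ctrl Γ σ.hi - ctrl Γ σ.lo =
        ∑ i ∈ Finset.range n, (ctrl Γ (p (i + 1)) - ctrl Γ (p i)) := by
      rw [Finset.sum_range_sub (fun i => ctrl Γ (p i)), hpn, hp0]
    rw [e2, Finset.mul_sum]
    refine norm_sum_le_of_le _ fun i hi => ?_
    have hi' : i < n := Finset.mem_range.1 hi
    rw [← sub_mul, norm_mul]
    refine mul_le_mul (hb _ (hin i hi'.le)) ?_ (norm_nonneg _) hκ
    rw [norm_sub_rev]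
    exact (dat Γ hΓ).hVG _ (hin' i hi'.le) _ (hin' (i + 1) hi') (hmono i)
  calc ‖L - g0 * (Γ.f σ.hi - Γ.f σ.lo)‖
      = ‖(∑ i ∈ Finset.range n, g (Γ.f (p i)) * (Γ.f (p (i + 1)) - Γ.f (p i)) -
          g0 * (Γ.f σ.hi - Γ.f σ.lo)) -
        (∑ i ∈ Finset.range n, g (Γ.f (p i)) * (Γ.f (p (i + 1)) - Γ.f (p i)) - L)‖ := by
        congr 1
        ring
    _ ≤ _ := norm_sub_le _ _
    _ ≤ _ := add_le_add h2 h1

/-- the local Lipschitz estimate -/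
lemma loc_est {Γ : PPath} (hΓ : Γ.Admissible) {f g : ℂ → ℂ} (hfg : IsDer (subpaths Γ) f g)
    {g0 : ℂ} {κ : ℝ} (hκ : 0 ≤ κ) {s t : ℝ} (hs : s ∈ Icc Γ.lo Γ.hi) (ht : t ∈ Icc Γ.lo Γ.hi)
    (hst : s ≤ t) (hb : ∀ τ ∈ Icc s t, ‖g (Γ.f τ) - g0‖ ≤ κ) :
    ‖(f (Γ.f t) - g0 * Γ.f t) - (f (Γ.f s) - g0 * Γ.f s)‖ ≤ κ * |ctrl Γ t - ctrl Γ s| := by
  rcases hst.eq_or_lt with rfl | hlt
  · simp
  set σ : PPath := ⟨s, t, hlt, Γ.f, Γ.cont.mono (Icc_subset_Icc hs.1 ht.2)⟩ with hσ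
  have hmem : σ ∈ subpaths Γ := ⟨hs.1, ht.2, rfl⟩
  have h1 := int_est hΓ σ hmem hκ (hfg σ hmem) hb
  have h2 : (f (Γ.f t) - g0 * Γ.f t) - (f (Γ.f s) - g0 * Γ.f s) =
      f (σ.f σ.hi) - f (σ.f σ.lo) - g0 * (Γ.f σ.hi - Γ.f σ.lo) := by
    show _ = f (Γ.f t) - f (Γ.f s) - g0 * (Γ.f t - Γ.f s)
    ring
  rw [h2]
  refine h1.trans ?_
  exact mul_le_mul_of_nonneg_left (le_abs_self _) hκ

lemma unif {F : ℝ → ℂ} {a b : ℝ} (hF : ContinuousOn F (Icc a b)) {ω : ℝ} (hω : 0 < ω) :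
    ∃ δ : ℝ, 0 < δ ∧ ∀ x ∈ Icc a b, ∀ y ∈ Icc a b, |x - y| < δ → ‖F x - F y‖ ≤ ω := by
  have h := isCompact_Icc.uniformContinuousOn_of_continuous hF
  rw [Metric.uniformContinuousOn_iff] at h
  obtain ⟨δ, hδ, h'⟩ := h ω hω
  refine ⟨δ, hδ, fun x hx y hy hxy => ?_⟩
  have := h' x hx y hy (by rw [Real.dist_eq]; exact hxy)
  rw [dist_eq_norm] at this
  exact this.le

/-- **Every Jordan path in the image of an admissible path `Γ` belongs to the maximal collection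
generated by the subpaths of `Γ`.** -/
theorem result (Γ : PPath) (hΓ : Γ.Admissible) (γ : PPath) (hγ : γ.Jordan)
    (hγΓ : γ.im ⊆ Γ.im) : γ ∈ maxColl Γ.im (subpaths Γ) := by
  refine ⟨jordan_admissible hΓ hγ hγΓ, hγΓ, fun f g hf hg hfg σ hσ => ?_⟩
  obtain ⟨hσ1, hσ2, hσ3⟩ := hσ
  intro ε hε
  set M : ℝ := ctrl Γ Γ.hi - ctrl Γ Γ.lo with hM
  have hM0 : 0 ≤ M := sub_nonneg.2 ((dat Γ hΓ).hVm Γ.lt.le)
  set ω : ℝ := ε / (2 * (M + 1)) with hω
  have hω0 : 0 < ω := by positivity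
  have hcont1 : ContinuousOn (fun τ => g (Γ.f τ)) (Icc Γ.lo Γ.hi) :=
    hg.comp Γ.cont fun τ hτ => ⟨τ, hτ, rfl⟩
  have hcont2 : ContinuousOn (fun τ => g (γ.f τ)) (Icc γ.lo γ.hi) :=
    hg.comp γ.cont fun τ hτ => hγΓ ⟨τ, hτ, rfl⟩
  obtain ⟨δ0, hδ0, hu0⟩ := unif hcont1 hω0
  obtain ⟨δ1, hδ1, hu1⟩ := unif hcont2 hω0
  refine ⟨δ1, hδ1, fun n p ξ hpart hmesh => ?_⟩
  have hmono' : ∀ i j, i ≤ j → j ≤ n → p i ≤ p j := by
    intro i j hij
    induction j, hij using Nat.le_induction with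
    | base => intro _; exact le_rfl
    | succ j hij ih =>
      intro hj
      exact (ih (by omega)).trans (hpart.mono j (by omega))
  have hpin : ∀ i ≤ n, p i ∈ Icc γ.lo γ.hi := fun i hi =>
    ⟨hσ1.trans (hpart.start ▸ hmono' 0 i (Nat.zero_le i) hi),
      (hpart.fin ▸ hmono' i n hi le_rfl).trans hσ2⟩
  have hκc : (((2 * ω).toNNReal : ℝ≥0) : ℝ) = 2 * ω := Real.coe_toNNReal _ (by positivity)
  have htot := (arc Γ hΓ γ hγ hγΓ).total (n := n) (p := p) hpin hpart.mono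
    (u := fun i z => f z - g (γ.f (ξ i)) * z)
    (fun i _ => hf.sub (continuousOn_const.mul continuousOn_id))
    (κ := (2 * ω).toNNReal) (δ := δ0) hδ0 (by
      intro i hi t ht t' ht' htt
      rw [hκc]
      obtain ⟨ht1, x, hx, hxt⟩ := ht
      obtain ⟨ht1', x', hx', hxt'⟩ := ht'
      have hξ : ξ i ∈ Icc γ.lo γ.hi := ⟨(hpin i hi.le).1.trans (hpart.tag i hi).1,
        (hpart.tag i hi).2.trans (hpin (i + 1) hi).2⟩
      have hclose : ∀ y ∈ Ico (p i) (p (i + 1)), ‖g (γ.f y) - g (γ.f (ξ i))‖ ≤ ω := by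
        intro y hy
        refine hu1 y ⟨(hpin i hi.le).1.trans hy.1, hy.2.le.trans (hpin (i + 1) hi).2⟩ _ hξ ?_
        have h1 := hmesh i hi
        have h2 := (hpart.tag i hi).1
        have h3 := (hpart.tag i hi).2
        rw [abs_lt]
        constructor <;> linarith [hy.1, hy.2]
      rcases le_total t' t with h | h
      · refine loc_est hΓ hfg (by positivity) ht1' ht1 h fun τ hτ => ?_
        have h1 : ‖g (Γ.f τ) - g (Γ.f t')‖ ≤ ω := by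
          refine hu0 τ ⟨ht1'.1.trans hτ.1, hτ.2.trans ht1.2⟩ t' ht1' ?_
          rw [abs_lt] at htt ⊢
          constructor <;> linarith [hτ.1, hτ.2, htt.1, htt.2]
        have h2 : ‖g (Γ.f t') - g (γ.f (ξ i))‖ ≤ ω := by
          have h3 : Γ.f t' = γ.f x' := hxt'.symm
          rw [h3]
          exact hclose x' hx'
        calc _ = ‖(g (Γ.f τ) - g (Γ.f t')) + (g (Γ.f t') - g (γ.f (ξ i)))‖ := by
              congr 1
              ring
          _ ≤ _ := norm_add_le _ _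
          _ ≤ ω + ω := add_le_add h1 h2
          _ = 2 * ω := by ring
      · have h5 := loc_est hΓ hfg (g0 := g (γ.f (ξ i))) (κ := 2 * ω) (by positivity) ht1 ht1' h
          fun τ hτ => by
          have h1 : ‖g (Γ.f τ) - g (Γ.f t)‖ ≤ ω := by
            refine hu0 τ ⟨ht1.1.trans hτ.1, hτ.2.trans ht1'.2⟩ t ht1 ?_
            rw [abs_lt] at htt ⊢
            constructor <;> linarith [hτ.1, hτ.2, htt.1, htt.2]
          have h2 : ‖g (Γ.f t) - g (γ.f (ξ i))‖ ≤ ω := by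
            have h3 : Γ.f t = γ.f x := hxt.symm
            rw [h3]
            exact hclose x hx
          calc _ = ‖(g (Γ.f τ) - g (Γ.f t)) + (g (Γ.f t) - g (γ.f (ξ i)))‖ := by
                congr 1
                ring
            _ ≤ _ := norm_add_le _ _
            _ ≤ ω + ω := add_le_add h1 h2
            _ = 2 * ω := by ring
        rw [norm_sub_rev, abs_sub_comm] at h5
        exact h5) Γ.lt.le
  rw [hκc] at htot
  have hML : 2 * ω * M ≤ ε := by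
    have h1 : 2 * ω * (M + 1) = ε := by
      rw [hω]
      field_simp
    nlinarith
  rw [hσ3]
  have htel : f (γ.f σ.hi) - f (γ.f σ.lo) =
      ∑ i ∈ Finset.range n, (f (γ.f (p (i + 1))) - f (γ.f (p i))) := by
    rw [Finset.sum_range_sub (fun i => f (γ.f (p i))), hpart.fin, hpart.start]
  rw [htel, ← Finset.sum_sub_distrib]
  refine (norm_sum_le _ _).trans (le_trans (le_of_eq ?_) (htot.trans hML))
  refine Finset.sum_congr rfl fun i _ => ?_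
  show ‖g (γ.f (ξ i)) * (γ.f (p (i + 1)) - γ.f (p i)) - (f (γ.f (p (i + 1))) - f (γ.f (p i)))‖ =
    ‖(f (γ.f (p (i + 1))) - g (γ.f (ξ i)) * γ.f (p (i + 1))) -
      (f (γ.f (p i)) - g (γ.f (ξ i)) * γ.f (p i))‖
  rw [← norm_neg]
  congr 1
  ring

end Pool.Agent.Results.MP_78c6b8_an.JordanPaths
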